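import Pool.Agent.Helper89.ME.GamDefs
import Pool.Agent.Helper89.ME.CatAll

/-!
# ME-M1b: genericity for the first tree: (I0), and choosing the points one after the other
-/

set_option autoImplicit false

namespace ME

open Encodable Set Filter Topology

/-- a residual set contains the intersection of a sequence of dense open sets -/
theorem exists_seq_of_residual {X : Type} [TopologicalSpace X] {s : Set X}
    (h : s ∈ residual X) : ∃ V : ℕ → Set X, (∀ k, IsOpen (V k)) ∧ (∀ k, Dense (V k)) ∧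
      ∀ g, (∀ k, g ∈ V k) → g ∈ s := by
  obtain ⟨S, h1, h2, h3, h4⟩ := mem_residual_iff.1 h
  have h5 : (insert univ S).Countable := h3.insert _
  obtain ⟨V, hV⟩ := h5.exists_eq_range (insert_nonempty _ _)
  have h6 : ∀ k, V k ∈ insert univ S := fun k => hV ▸ mem_range_self k
  refine ⟨V, fun k => ?_, fun k => ?_, fun g hg => h4 ?_⟩
  · rcases h6 k with h | h
    · rw [h]
      exact isOpen_univ
    · exact h1 _ h
  · rcases h6 k with h | h
    · rw [h]
      exact dense_univ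
    · exact h2 _ h
  · intro U hU
    have : U ∈ insert univ S := mem_insert_of_mem _ hU
    rw [hV] at this
    obtain ⟨k, rfl⟩ := this
    exact hg k

/-- the index type of all bits of an element of `Gam1` -/
abbrev Bits : Type := List Bool ⊕ (ℕ ⊕ (ℕ ⊕ ((Bool × ℕ) × ℕ)))

/-- all bits -/
def allBits (g : Gam1) : Bits → Bool :=
  Sum.elim g.1 (Sum.elim g.2.1 (Sum.elim g.2.2.1 (fun p => g.2.2.2 p.1 p.2)))

/-- the inverse -/
def ofBits (γ : Bits → Bool) : Gam1 :=
  (fun w => γ (Sum.inl w), (fun n => γ (Sum.inr (Sum.inl n)),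
    (fun n => γ (Sum.inr (Sum.inr (Sum.inl n))),
      fun i n => γ (Sum.inr (Sum.inr (Sum.inr (i, n)))))))

/-- as a homeomorphism -/
def bitsHomeo : Gam1 ≃ₜ (Bits → Bool) where
  toFun := allBits
  invFun := ofBits
  left_inv := fun g => rfl
  right_inv := by
    intro γ
    funext b
    rcases b with w | n | n | p <;> rfl
  continuous_toFun := by
    refine continuous_pi fun b => ?_
    rcases b with w | n | n | p
    · exact (continuous_apply w).comp continuous_fst
    · exact (continuous_apply n).comp (continuous_fst.comp continuous_snd)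
    · exact (continuous_apply n).comp (continuous_fst.comp (continuous_snd.comp continuous_snd))
    · exact (continuous_apply p.2).comp ((continuous_apply p.1).comp
        (continuous_snd.comp (continuous_snd.comp continuous_snd)))
  continuous_invFun := by
    refine Continuous.prodMk ?_ (Continuous.prodMk ?_ (Continuous.prodMk ?_ ?_))
    · exact continuous_pi fun w => continuous_apply _
    · exact continuous_pi fun w => continuous_apply _
    · exact continuous_pi fun w => continuous_apply _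
    · exact continuous_pi fun w => continuous_pi fun n => continuous_apply _

/-- the index of a bit of a base point -/
def cI (q : Bool × ℕ) : Bits := cond q.1 (Sum.inr (Sum.inl q.2)) (Sum.inr (Sum.inr (Sum.inl q.2)))

theorem primrec_cI : Primrec cI :=
  Primrec.cond Primrec.fst (Primrec.sumInr.comp (Primrec.sumInl.comp Primrec.snd))
    (Primrec.sumInr.comp (Primrec.sumInr.comp (Primrec.sumInl.comp Primrec.snd)))

/-- the bits of the points, as a positive condition -/
def PB (M : ℕ) (X : Set (Bits × Bool)) (q : Idx × (ℕ × Bool)) : Prop :=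
  (q.1.2 = none ∧ (cI (q.1.1, q.2.1), q.2.2) ∈ X) ∨
  ∃ m, q.1.2 = some m ∧ ((q.2.1 < M + m ∧ (cI (q.1.1, q.2.1), q.2.2) ∈ X) ∨
    ((q.2.1 = M + m ∧ (cI (q.1.1, q.2.1), !q.2.2) ∈ X) ∨
      (M + m < q.2.1 ∧ (Sum.inr (Sum.inr (Sum.inr ((q.1.1, m), q.2.1))), q.2.2) ∈ X)))

theorem EP_PB (M : ℕ) : EP (PB M) := by
  have hc : Primrec (fun q : Idx × (ℕ × Bool) => cI (q.1.1, q.2.1)) :=
    primrec_cI.comp ((Primrec.fst.comp Primrec.fst).pair (Primrec.fst.comp Primrec.snd))
  have h1 : EP (fun (X : Set (Bits × Bool)) (q : Idx × (ℕ × Bool)) =>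
      q.1.2 = none ∧ (cI (q.1.1, q.2.1), q.2.2) ∈ X) :=
    EP.and (EP.re (RE.eq (Primrec.snd.comp Primrec.fst) (Primrec.const none)))
      (EP.mem (hc.pair (Primrec.snd.comp Primrec.snd)))
  have f1 : Primrec (fun y : (Idx × (ℕ × Bool)) × ℕ => y.1.1.2) :=
    Primrec.snd.comp (Primrec.fst.comp Primrec.fst)
  have f2 : Primrec (fun y : (Idx × (ℕ × Bool)) × ℕ => y.1.2.1) :=
    Primrec.fst.comp (Primrec.snd.comp Primrec.fst)
  have f3 : Primrec (fun y : (Idx × (ℕ × Bool)) × ℕ => y.1.2.2) :=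
    Primrec.snd.comp (Primrec.snd.comp Primrec.fst)
  have f4 : Primrec (fun y : (Idx × (ℕ × Bool)) × ℕ => M + y.2) :=
    Primrec.nat_add.comp (Primrec.const M) Primrec.snd
  have f5 : Primrec (fun y : (Idx × (ℕ × Bool)) × ℕ => cI (y.1.1.1, y.1.2.1)) :=
    hc.comp Primrec.fst
  have f6 : Primrec (fun y : (Idx × (ℕ × Bool)) × ℕ =>
      (Sum.inr (Sum.inr (Sum.inr ((y.1.1.1, y.2), y.1.2.1))) : Bits)) :=
    Primrec.sumInr.comp (Primrec.sumInr.comp (Primrec.sumInr.comp
      (((Primrec.fst.comp (Primrec.fst.comp Primrec.fst)).pair Primrec.snd).pair f2)))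
  have h2 : EP (fun (X : Set (Bits × Bool)) (y : (Idx × (ℕ × Bool)) × ℕ) =>
      y.1.1.2 = some y.2 ∧ ((y.1.2.1 < M + y.2 ∧ (cI (y.1.1.1, y.1.2.1), y.1.2.2) ∈ X) ∨
    ((y.1.2.1 = M + y.2 ∧ (cI (y.1.1.1, y.1.2.1), !y.1.2.2) ∈ X) ∨
      (M + y.2 < y.1.2.1 ∧
        (Sum.inr (Sum.inr (Sum.inr ((y.1.1.1, y.2), y.1.2.1))), y.1.2.2) ∈ X)))) := by
    refine EP.and (EP.re (RE.eq f1 (Primrec.option_some.comp Primrec.snd))) ?_
    refine EP.or (EP.and (EP.re (RE.prim (primrecRel_comp Primrec.nat_lt f2 f4)))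
      (EP.mem (f5.pair f3))) (EP.or (EP.and (EP.re (RE.eq f2 f4))
        (EP.mem (f5.pair (Primrec.not.comp f3)))) (EP.and
          (EP.re (RE.prim (primrecRel_comp Primrec.nat_lt f4 f2))) (EP.mem (f6.pair f3))))
  exact (h1.or h2.ex).of_iff fun X q => Iff.rfl

theorem mem_gr_allBits_cI (g : Gam1) (j : Bool) (i : ℕ) (b : Bool) :
    (cI (j, i), b) ∈ gr (allBits g) ↔ (cond j g.2.1 g.2.2.1) i = b := by
  cases j <;> rfl

theorem PB_iff (M : ℕ) (g : Gam1) (l : Idx) (i : ℕ) (b : Bool) :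
    PB M (gr (allBits g)) (l, (i, b)) ↔ pts M g l i = b := by
  obtain ⟨j, l⟩ := l
  unfold PB
  simp only [mem_gr_allBits_cI]
  cases l with
  | none =>
    have h1 : pts M g (j, none) i = (cond j g.2.1 g.2.2.1) i := rfl
    rw [h1]
    constructor
    · rintro (⟨_, h⟩ | ⟨m, h, _⟩)
      · exact h
      · exact absurd h (by simp)
    · intro h
      exact Or.inl ⟨rfl, h⟩
  | some m =>
    have h1 : pts M g (j, some m) i = sat (cond j g.2.1 g.2.2.1) (M + m) (g.2.2.2 (j, m)) i := rfl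
    rw [h1]
    have h2 : ∀ b', ((Sum.inr (Sum.inr (Sum.inr ((j, m), i))) : Bits), b') ∈ gr (allBits g) ↔
        g.2.2.2 (j, m) i = b' := fun b' => Iff.rfl
    constructor
    · rintro (⟨h, _⟩ | ⟨m', h, h'⟩)
      · exact absurd h (by simp)
      · have hm : m = m' := by simpa using h
        subst hm
        rcases h' with ⟨h3, h4⟩ | ⟨h3, h4⟩ | ⟨h3, h4⟩
        · unfold sat
          rw [if_pos h3]
          exact h4
        · unfold sat
          have h3' : i = M + m := h3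
          rw [if_neg (by omega), if_pos h3']
          have h4' : (cond j g.2.1 g.2.2.1) i = !b := h4
          rw [← h3', h4', Bool.not_not]
        · unfold sat
          have h5 : M + m < i := h3
          rw [if_neg (by omega), if_neg (by omega)]
          exact (h2 b).1 h4
    · intro h
      refine Or.inr ⟨m, rfl, ?_⟩
      unfold sat at h
      rcases lt_trichotomy i (M + m) with h3 | h3 | h3
      · rw [if_pos h3] at h
        exact Or.inl ⟨h3, h⟩
      · rw [if_neg (by omega), if_pos h3] at h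
        refine Or.inr (Or.inl ⟨h3, ?_⟩)
        rw [← h, Bool.not_not, h3]
      · rw [if_neg (by omega), if_neg (by omega)] at h
        exact Or.inr (Or.inr ⟨h3, (h2 b).2 h⟩)

/-- the operator computing `GF` from all bits -/
def opGF (M : ℕ) (X : Set (Bits × Bool)) : Set ((Idx × ℕ) × Bool) :=
  {p | ∃ w : List Bool, (w.length = p.1.2 ∧ (Sum.inl w, p.2) ∈ X) ∧
    ∀ i ∈ List.range p.1.2, PB M X (p.1.1, (i, w.getD i false))}

theorem isOp_opGF (M : ℕ) : IsOp (opGF M) := by
  have f1 : Primrec (fun y : ((Idx × ℕ) × Bool) × List Bool => y.1.1.2) :=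
    Primrec.snd.comp (Primrec.fst.comp Primrec.fst)
  have h1 : EP (fun (X : Set (Bits × Bool)) (y : ((Idx × ℕ) × Bool) × List Bool) =>
      y.2.length = y.1.1.2 ∧ ((Sum.inl y.2 : Bits), y.1.2) ∈ X) :=
    EP.and (EP.re (RE.eq (Primrec.list_length.comp Primrec.snd) f1))
      (EP.mem ((Primrec.sumInl.comp Primrec.snd).pair (Primrec.snd.comp Primrec.fst)))
  have h2 : EP (fun (X : Set (Bits × Bool)) (z : (((Idx × ℕ) × Bool) × List Bool) × ℕ) =>
      PB M X (z.1.1.1.1, (z.2, z.1.2.getD z.2 false))) := by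
    refine EP.subst (EP_PB M) (f := fun z : (((Idx × ℕ) × Bool) × List Bool) × ℕ =>
      (z.1.1.1.1, (z.2, z.1.2.getD z.2 false))) ?_
    exact (Primrec.fst.comp (Primrec.fst.comp (Primrec.fst.comp Primrec.fst))).pair
      (Primrec.snd.pair ((Primrec.list_getD false).comp (Primrec.snd.comp Primrec.fst)
        Primrec.snd))
  have h3 := EP.ball h2 (g := fun y => List.range y.1.1.2) (Primrec.list_range.comp f1)
  exact ((h1.and h3).ex).of_iff fun X p => Iff.rfl

theorem opGF_allBits (M : ℕ) (g : Gam1) : opGF M (gr (allBits g)) = GF g.1 (pts M g) univ := by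
  ext ⟨⟨l, n⟩, v⟩
  constructor
  · rintro ⟨w, ⟨h1, h2⟩, h3⟩
    refine ⟨mem_univ _, ?_⟩
    have h4 : pre (pts M g l) n = w := by
      apply List.ext_getElem
      · rw [length_pre]
        exact h1.symm
      · intro i h5 h6
        rw [pre_getElem]
        have h7 := (PB_iff M g l i _).1 (h3 i (by
          rw [length_pre] at h5
          exact List.mem_range.2 h5))
        rw [h7]
        exact (List.getElem_eq_getD false).symm
    change g.1 (pre (pts M g l) n) = v
    rw [h4]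
    exact h2
  · rintro ⟨_, h⟩
    refine ⟨pre (pts M g l) n, ⟨length_pre _ _, h⟩, ?_⟩
    intro i hi
    have hi' : i < n := List.mem_range.1 hi
    refine (PB_iff M g l i _).2 ?_
    have h5 : i < (pre (pts M g l) n).length := by
      rw [length_pre]
      exact hi'
    rw [← List.getElem_eq_getD (h := h5) false, pre_getElem]

/-- (I0) is a comeagre condition -/
theorem dense_I0 {H A : Set ℕ} (h : ¬ ER H A) (M : ℕ) :
    ∃ V : ℕ → Set Gam1, (∀ k, IsOpen (V k)) ∧ (∀ k, Dense (V k)) ∧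
      ∀ g, (∀ k, g ∈ V k) → ¬ ER H (jn A (cd (GF g.1 (pts M g) univ))) := by
  have h1 : IsMeagre {γ : Bits → Bool | ER H (sj A (gr γ))} := G1 h
  have h2 : IsMeagre (bitsHomeo ⁻¹' {γ : Bits → Bool | ER H (sj A (gr γ))}) :=
    h1.preimage_of_isOpenMap bitsHomeo.continuous bitsHomeo.isOpenMap
  obtain ⟨V, ho, hd, hV⟩ := exists_seq_of_residual (s := (bitsHomeo ⁻¹' {γ : Bits → Bool |
    ER H (sj A (gr γ))})ᶜ) h2
  refine ⟨V, ho, hd, fun g hg hcon => hV g hg ?_⟩
  change ER H (sj A (gr (allBits g)))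
  refine hcon.trans ?_
  refine ER.cd_left (ER.sj (ER.left _ _) (ER.cd_left ?_))
  refine ER.trans ?_ (ER.right _ _)
  exact ⟨opGF M, isOp_opGF M, opGF_allBits M g⟩

/-- choosing the points one after the other, for countably many dense open sets -/
theorem gen_choose {κ : Type} [Countable κ] (W : κ → Set Gam1) (ho : ∀ k, IsOpen (W k))
    (hd : ∀ k, Dense (W k)) :
    ∀ᶠ t in residual (List Bool → Bool), ∀ᶠ a₁ in residual (ℕ → Bool),
    ∀ᶠ a₀ in residual (ℕ → Bool), ∀ (B : Bool × ℕ → Set (ℕ → Bool)),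
      (∀ i, ENM (B i) []) → ∃ z : Bool × ℕ → ℕ → Bool, (∀ i, z i ∈ B i) ∧
        ∀ k, ((t, (a₁, (a₀, z))) : Gam1) ∈ W k := by
  have h1 : ∀ᶠ t in residual (List Bool → Bool), ∀ k, Dense {y | (t, y) ∈ W k} :=
    eventually_countable_forall.2 fun k => kuratowski_ulam (ho k) (hd k)
  filter_upwards [h1] with t ht
  have ho1 : ∀ k, IsOpen {y | (t, y) ∈ W k} := fun k =>
    (ho k).preimage (Continuous.prodMk_right t)
  have h2 : ∀ᶠ a₁ in residual (ℕ → Bool), ∀ k, Dense {y | (t, (a₁, y)) ∈ W k} :=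
    eventually_countable_forall.2 fun k => kuratowski_ulam (ho1 k) (ht k)
  filter_upwards [h2] with a₁ ha₁
  have ho2 : ∀ k, IsOpen {y | (t, (a₁, y)) ∈ W k} := fun k =>
    (ho1 k).preimage (Continuous.prodMk_right a₁)
  have h3 : ∀ᶠ a₀ in residual (ℕ → Bool), ∀ k, Dense {y | (t, (a₁, (a₀, y))) ∈ W k} :=
    eventually_countable_forall.2 fun k => kuratowski_ulam (ho2 k) (ha₁ k)
  filter_upwards [h3] with a₀ ha₀
  intro B hB
  have ho3 : ∀ k, IsOpen {y | (t, (a₁, (a₀, y))) ∈ W k} := fun k =>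
    (ho2 k).preimage (Continuous.prodMk_right a₀)
  exact product_lemma (fun k => {y | (t, (a₁, (a₀, y))) ∈ W k}) ho3 ha₀ B hB

/-- ME-M1d, from the statement of `dense_PA` -/
theorem gen1_of (hPA : ∀ (b : Set ℕ) (M : ℕ) (F : Set Idx),
    ∃ V : ℕ → Set Gam1, (∀ k, IsOpen (V k)) ∧ (∀ k, Dense (V k)) ∧
      ∀ g, (∀ k, g ∈ V k) → ∀ u, (∀ l ∈ F, pts M g l ∉ cyl u) →
        PA (jn b (cd (GF g.1 (pts M g) F))) g.1 u)
    {H A : Set ℕ} (h : ¬ ER H A) (b : Set ℕ) (FF : Set (Set Idx)) (hFF : FF.Countable) :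
    ∀ᶠ t in residual (List Bool → Bool), ∀ᶠ a₁ in residual (ℕ → Bool),
    ∀ᶠ a₀ in residual (ℕ → Bool), ∀ (M : ℕ) (B : Bool × ℕ → Set (ℕ → Bool)),
      (∀ i, ENM (B i) []) → ∃ z : Bool × ℕ → ℕ → Bool, (∀ i, z i ∈ B i) ∧
        ¬ ER H (jn A (cd (GF t (pt M (fun j => cond j a₁ a₀) z) univ))) ∧
        ∀ F ∈ FF, ∀ u, (∀ l ∈ F, pt M (fun j => cond j a₁ a₀) z l ∉ cyl u) →
          PA (jn b (cd (GF t (pt M (fun j => cond j a₁ a₀) z) F))) t u := by
  have : Countable FF := hFF.to_subtype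
  choose V1 hV1o hV1d hV1 using fun M => dense_I0 h M
  choose V2 hV2o hV2d hV2 using fun M F => hPA b M F
  let W : (ℕ × ℕ) ⊕ ((ℕ × FF) × ℕ) → Set Gam1 :=
    Sum.elim (fun q => V1 q.1 q.2) (fun q => V2 q.1.1 q.1.2.1 q.2)
  have hWo : ∀ k, IsOpen (W k) := by
    rintro (q | q)
    · exact hV1o _ _
    · exact hV2o _ _ _
  have hWd : ∀ k, Dense (W k) := by
    rintro (q | q)
    · exact hV1d _ _
    · exact hV2d _ _ _
  have h1 := gen_choose W hWo hWd
  filter_upwards [h1] with t ht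
  filter_upwards [ht] with a₁ ha₁
  filter_upwards [ha₁] with a₀ ha₀
  intro M B hB
  obtain ⟨z, hz, hW⟩ := ha₀ B hB
  refine ⟨z, hz, ?_, ?_⟩
  · exact hV1 M (t, (a₁, (a₀, z))) (fun k => hW (Sum.inl (M, k)))
  · intro F hF u hu
    exact hV2 M F (t, (a₁, (a₀, z))) (fun k => hW (Sum.inr ((M, ⟨F, hF⟩), k))) u hu

end ME
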