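import Pool.Agent.Helper89.ME.LatDefs

/-!
# From rigidity of the lattice of problems to the frozen statement S14435
-/

set_option autoImplicit false

namespace ME

open Encodable Set

section basics

variable {A B C D : Set (Set ℕ)}

theorem fin_PR_refl (A : Set (Set ℕ)) : PR A A := ⟨fun X => X, IsOp.id, fun _ h => h⟩

theorem fin_PR_trans (h1 : PR A B) (h2 : PR B C) : PR A C := by
  obtain ⟨Φ, hΦ, h⟩ := h1
  obtain ⟨Ψ, hΨ, h'⟩ := h2
  exact ⟨fun X => Φ (Ψ X), hΦ.comp hΨ, fun X hX => h _ (h' X hX)⟩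

end basics

/-- the graph of a partial function -/
def grf (f : ℕ →. ℕ) : Set ℕ := {n | (Nat.unpair n).2 ∈ f (Nat.unpair n).1}

/-- a set as a partial function -/
def iof (X : Set ℕ) : ℕ →. ℕ := fun n => ⟨n ∈ X, fun _ => 0⟩

/-- forward translation -/
def fwd (X : Set ℕ) : Set ℕ := {m | (Nat.unpair m).2 = 0 ∧ (Nat.unpair m).1 ∈ X}

/-- backward translation -/
def bwd (Y : Set ℕ) : Set ℕ := {n | Nat.pair n 0 ∈ Y}

theorem grf_iof (X : Set ℕ) : grf (iof X) = fwd X := by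
  ext m
  simp only [grf, iof, fwd, Set.mem_ofPred_eq, Part.mem_mk_iff]
  constructor
  · rintro ⟨h, h'⟩
    exact ⟨h'.symm, h⟩
  · rintro ⟨h, h'⟩
    exact ⟨h', h.symm⟩

theorem bwd_fwd (X : Set ℕ) : bwd (fwd X) = X := by
  ext n
  simp [bwd, fwd]

theorem isOp_fwd : IsOp fwd := by
  have h1 : EP (fun (_ : Set ℕ) (m : ℕ) => (Nat.unpair m).2 = 0) :=
    EP.re (RE.eq (Primrec.snd.comp Primrec.unpair) (Primrec.const 0))
  have h2 : EP (fun (X : Set ℕ) (m : ℕ) => (Nat.unpair m).1 ∈ X) :=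
    EP.mem (Primrec.fst.comp Primrec.unpair)
  exact (h1.and h2).of_iff fun X b => Iff.rfl

theorem isOp_bwd : IsOp bwd :=
  EP.mem (f := fun n : ℕ => Nat.pair n 0) (Primrec₂.natPair.comp Primrec.id (Primrec.const 0))

/-- the problem of graphs -/
theorem PE_iof (P : Set (Set ℕ)) : PE P (grf '' (iof '' P)) := by
  constructor
  · refine ⟨bwd, isOp_bwd, ?_⟩
    rintro _ ⟨_, ⟨X, hX, rfl⟩, rfl⟩
    rw [grf_iof, bwd_fwd]
    exact hX
  · refine ⟨fwd, isOp_fwd, ?_⟩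
    intro X hX
    exact ⟨iof X, ⟨X, hX, rfl⟩, grf_iof X⟩

theorem R_iff_PR {A B : Set (ℕ →. ℕ)} :
    (∃ g : ℕ × List ℕ →. Unit, Partrec g ∧
       ∀ f ∈ B, ∃ h ∈ A, ∀ n : ℕ,
         ((∃ l : List ℕ, (g (n, l)).Dom ∧
              ∀ y ∈ l, (Nat.unpair y).2 ∈ f (Nat.unpair y).1) ↔
           (Nat.unpair n).2 ∈ h (Nat.unpair n).1)) ↔ PR (grf '' A) (grf '' B) := by
  constructor
  · rintro ⟨g, hg, H⟩
    have hW : RE (fun x : List ℕ × ℕ => (g (x.2, x.1)).Dom) := by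
      have h1 : RE (fun y : ℕ × List ℕ => (g y).Dom) := RE.of_re hg.dom_re
      exact h1.subst (Primrec.snd.pair Primrec.fst)
    refine ⟨fun X => {n | ∃ l, (g (n, l)).Dom ∧ ∀ a ∈ l, a ∈ X}, ⟨_, hW, fun X b => Iff.rfl⟩, ?_⟩
    rintro _ ⟨f, hf, rfl⟩
    obtain ⟨h, hh, hn⟩ := H f hf
    refine ⟨h, hh, ?_⟩
    ext n
    exact (hn n).symm
  · rintro ⟨Φ, ⟨W, hW, hΦ⟩, H⟩
    have hW' : REPred (fun y : ℕ × List ℕ => W (y.2, y.1)) :=
      RE.to_re (hW.subst (Primrec.snd.pair Primrec.fst))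
    refine ⟨fun y => Part.assert (W (y.2, y.1)) fun _ => Part.some (), hW', ?_⟩
    intro f hf
    obtain ⟨h, hh, he⟩ := H (grf f) ⟨f, hf, rfl⟩
    refine ⟨h, hh, fun n => ?_⟩
    have h1 : (n ∈ grf h ↔ n ∈ Φ (grf f)) := by rw [he]
    have h2 : n ∈ Φ (grf f) ↔ ∃ l, W (l, n) ∧ ∀ a ∈ l, a ∈ grf f := hΦ (grf f) n
    refine Iff.trans ?_ (h1.trans h2).symm
    constructor
    · rintro ⟨l, hl, hl'⟩
      have h3 : W (l, n) := by
        obtain ⟨h4, _⟩ := hl
        exact h4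
      exact ⟨l, h3, hl'⟩
    · rintro ⟨l, hl, hl'⟩
      exact ⟨l, ⟨hl, trivial⟩, hl'⟩

/-- **The frozen statement from rigidity.** -/
theorem S14435_of_rigid (rigid : ∀ (a : Aut) (P : Set (Set ℕ)), PE (a.F P) P) :
  ∀ R : Set (ℕ →. ℕ) → Set (ℕ →. ℕ) → Prop,
    (∀ A B, R A B ↔ ∃ g : ℕ × List ℕ →. Unit, Partrec g ∧
       ∀ f ∈ B, ∃ h ∈ A, ∀ n : ℕ,
         ((∃ l : List ℕ, (g (n, l)).Dom ∧
              ∀ y ∈ l, (Nat.unpair y).2 ∈ f (Nat.unpair y).1) ↔
           (Nat.unpair n).2 ∈ h (Nat.unpair n).1)) →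
    ∀ F : Set (ℕ →. ℕ) → Set (ℕ →. ℕ),
      (∀ A B, R (F A) (F B) ↔ R A B) →
      (∀ B, ∃ A, R (F A) B ∧ R B (F A)) →
      ∀ A : Set (ℕ →. ℕ),
        (∃ A' : Set (ℕ →. ℕ), (∀ f ∈ A', ∀ x, (f x).Dom) ∧ R A A' ∧ R A' A) →
        ∃ C : Set (ℕ →. ℕ), (∀ f ∈ C, ∀ x, (f x).Dom) ∧ R (F A) C ∧ R C (F A) := by
  intro R hR F hF hs A hA
  have hR' : ∀ A B, R A B ↔ PR (grf '' A) (grf '' B) := fun A B => (hR A B).trans R_iff_PR
  have tr : ∀ {A B C}, R A B → R B C → R A C := by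
    intro A B C h1 h2
    rw [hR'] at *
    exact fin_PR_trans h1 h2
  -- the double translation
  have hio : ∀ C : Set (ℕ →. ℕ), R C (iof '' (grf '' C)) ∧ R (iof '' (grf '' C)) C := by
    intro C
    obtain ⟨h1, h2⟩ := PE_iof (grf '' C)
    exact ⟨(hR' _ _).2 h1, (hR' _ _).2 h2⟩
  choose V hV1 hV2 using hs
  have hP : ∀ P Q : Set (Set ℕ), PR P Q ↔ R (iof '' P) (iof '' Q) := by
    intro P Q
    rw [hR']
    constructor
    · intro h
      exact fin_PR_trans (PE_iof P).2 (fin_PR_trans h (PE_iof Q).1)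
    · intro h
      exact fin_PR_trans (PE_iof P).1 (fin_PR_trans h (PE_iof Q).2)
  let a : Aut :=
    { F := fun P => grf '' (F (iof '' P))
      G := fun P => grf '' (V (iof '' P))
      F_mono := by
        intro P Q h
        rw [← hR', hF, ← hP]
        exact h
      G_mono := by
        intro P Q h
        rw [← hR', ← hF]
        exact tr (hV1 _) (tr ((hP _ _).1 h) (hV2 _))
      FG := by
        intro P
        have h1 := hio (V (iof '' P))
        constructor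
        · refine fin_PR_trans ((hR' _ _).1 ?_) (PE_iof P).2
          exact tr ((hF _ _).2 h1.2) (hV1 _)
        · refine fin_PR_trans (PE_iof P).1 ((hR' _ _).1 ?_)
          exact tr (hV2 _) ((hF _ _).2 h1.1)
      GF := by
        intro P
        have h1 := hio (F (iof '' P))
        constructor
        · refine fin_PR_trans ((hR' _ _).1 ?_) (PE_iof P).2
          rw [← hF]
          exact tr (hV1 _) h1.2
        · refine fin_PR_trans (PE_iof P).1 ((hR' _ _).1 ?_)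
          rw [← hF]
          exact tr h1.1 (hV2 _) }
  obtain ⟨A', hA', h1, h2⟩ := hA
  have h3 := rigid a (grf '' A)
  have h4 := hio A
  have h5 : R (F A) A := by
    have : R (F (iof '' (grf '' A))) A := (hR' _ _).2 h3.1
    exact tr ((hF _ _).2 h4.1) this
  have h6 : R A (F A) := by
    have : R A (F (iof '' (grf '' A))) := (hR' _ _).2 h3.2
    exact tr this ((hF _ _).2 h4.2)
  exact ⟨A', hA', tr h5 h1, tr h2 h6⟩

end ME
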